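import Pool.Agent.Helper597.Don
import Pool.Agent.Helper597.Don85.Lam1
import Pool.Agent.Helper597.Don85.P_perm_of
import Pool.Agent.Helper597.Don85.P_bd_cost
import Pool.Agent.Helper597.Don85.P_cr_escape

/-!
# Don's conjecture for standardized completely reachable binary automata

Let `b` be the rotation `q ↦ q + 1` of `ZMod n` and let `a = f` be a map which omits exactly the
state `0` and takes exactly the state `f 0` more than once, such that the automaton is completely
reachable. Then every non-empty set `S` of states is reached by a word of length at most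
`n * (n - |S|)`.
-/

set_option autoImplicit false

namespace Pool.Agent.Results.MP_cc0723_lc.Full

open Pool.Agent.Helper597.Don85

/-- Don's conjecture holds for all standardized completely reachable binary automata. -/
theorem result :
    ∀ (n : ℕ) [NeZero n] (f : ZMod n → ZMod n),
      (∀ P : Finset (ZMod n), P.Nonempty →
        ∃ w : List Bool,
          Finset.univ.image (fun q : ZMod n =>
            w.foldl (fun (p : ZMod n) (c : Bool) => if c then f p else p + 1) q) = P) →
      (∀ q : ZMod n, (∀ p : ZMod n, f p ≠ q) ↔ q = 0) →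
      (∀ q : ZMod n, (∃ p₁ p₂ : ZMod n, p₁ ≠ p₂ ∧ f p₁ = q ∧ f p₂ = q) ↔ q = f 0) →
      ∀ S : Finset (ZMod n), S.Nonempty →
        ∃ w : List Bool, w.length ≤ n * (n - S.card) ∧
          Finset.univ.image (fun q : ZMod n =>
            w.foldl (fun (p : ZMod n) (c : Bool) => if c then f p else p + 1) q) = S := by
  intro n _ f hreach hexc hdup S hS
  by_cases hne : f (f 0) = f 0
  swap
  · exact Pool.Agent.Helper597.Don.final n f hreach hexc hdup hne S hS
  obtain ⟨hd, π, hπ, hf⟩ := perm_of f hexc hdup
  have hB := bd_cost π (f 0) f hπ hd hf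
  have hfix : π (f 0) = f 0 := by
    have := hf (f 0)
    rw [if_neg hd] at this
    rw [← this, hne]
  have hesc : ∀ P : AddSubgroup (ZMod n), f 0 ∈ P → P ≠ ⊤ → ∃ x ∈ P, π x ∉ P := fun P hP h =>
    cr_escape π (f 0) f hπ hd hf hreach P hP h
  have hSc : Sᶜ ≠ Finset.univ := by
    intro h
    rw [Finset.compl_eq_univ_iff] at h
    exact hS.ne_empty h
  have hmain : Bd f Sᶜ (n * (Sᶜ : Finset (ZMod n)).card) :=
    lam1 π (f 0) (Bd f) hB hπ hd hfix hesc Sᶜ hSc
  obtain ⟨w, hw, hw2⟩ := hmain
  refine ⟨w, ?_, ?_⟩
  · rw [Finset.card_compl, ZMod.card] at hw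
    exact hw
  · rw [hw2, compl_compl]

end Pool.Agent.Results.MP_cc0723_lc.Full
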