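import Pool.Agent.Helper85.Don.Main
import Pool.Agent.Helper85.Don.P_perm_of
import Pool.Agent.Helper85.Don.P_bd_cost
import Pool.Agent.Helper85.Don.P_cr_escape

/-!
# Don's conjecture for standardized completely reachable binary automata

Let `b` be the rotation `q ↦ q + 1` of `ZMod n` and let `a = f` be a map which omits exactly the
state `0` and takes exactly the state `f 0` more than once, such that the automaton is completely
reachable. Let `K` be the orbit subgroup, generated by `f 0, f (f 0), ...`. If `K` together with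
the image under `f` of the non-zero elements of `K` generates `ZMod n`, or if the index of `K` is
a prime number, then Don's conjecture holds: every non-empty set `S` of states is reached by a
word of length at most `n * (n - |S|)`.
-/

set_option autoImplicit false

namespace Pool.Agent.Results.MP_cc0723_lc.GeneratingOrbit

open Pool.Agent.Helper85.Don

/-- The orbit subgroup: the subgroup generated by `f 0, f (f 0), f (f (f 0)), ...`. -/
def orbitSubgroup {n : ℕ} (f : ZMod n → ZMod n) : AddSubgroup (ZMod n) :=
  AddSubgroup.closure {x | ∃ i : ℕ, x = f^[i + 1] 0}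

theorem orb_eq {n : ℕ} [NeZero n] (π : Equiv.Perm (ZMod n)) (f : ZMod n → ZMod n)
    (hπ : π 0 = 0) (hd : f 0 ≠ 0) (hf : ∀ x, f x = if x = 0 then f 0 else π x) :
    orb π (f 0) = orbitSubgroup f := by
  have key : ∀ i : ℕ, f^[i + 1] 0 = (π ^ i) (f 0) ∧ (π ^ i) (f 0) ≠ 0 := by
    intro i
    induction i with
    | zero => exact ⟨rfl, hd⟩
    | succ i ih =>
      have h1 : (π ^ (i + 1)) (f 0) = π ((π ^ i) (f 0)) := by
        rw [pow_succ', Equiv.Perm.mul_apply]
      refine ⟨?_, ?_⟩
      · rw [Function.iterate_succ_apply', ih.1, hf, if_neg ih.2, h1]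
      · rw [h1]
        intro h
        apply ih.2
        apply π.injective
        rw [h, hπ]
  unfold orb orbitSubgroup
  congr 1
  ext x
  constructor
  · rintro ⟨i, rfl⟩
    exact ⟨i, (key i).1.symm⟩
  · rintro ⟨i, rfl⟩
    exact ⟨i, (key i).1.symm⟩

/-- The bound for all hole sets. -/
theorem all_sets {n : ℕ} [NeZero n] (π : Equiv.Perm (ZMod n)) (d : ZMod n)
    (B : Finset (ZMod n) → ℕ → Prop) (hB : Cost π d B) (hπ : π 0 = 0) (hd : d ≠ 0)
    (hesc : orb π d ≠ ⊤ → ∃ x ∈ orb π d, π x ∉ orb π d)
    (hgen : AddSubgroup.closure ((orb π d : Set (ZMod n)) ∪ π '' (orb π d : Set (ZMod n))) = ⊤) :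
    ∀ k : ℕ, ∀ T : Finset (ZMod n), T.card = k → T ≠ Finset.univ → B T (n * T.card) := by
  have hn2 : 2 ≤ n := by
    by_contra hlt
    have h0 : n ≠ 0 := NeZero.ne n
    have h1 : n = 1 := by omega
    subst h1
    exact hd (Subsingleton.elim _ _)
  intro k
  induction k using Nat.strong_induction_on with
  | _ k IH =>
    intro T hTk hu
    have IH' : ∀ V : Finset (ZMod n), V.card < T.card → B V (n * V.card) := by
      intro V hV
      refine IH V.card (by omega) V rfl ?_
      rintro rfl
      have := Finset.card_le_univ T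
      rw [Finset.card_univ] at hV
      omega
    rcases T.eq_empty_or_nonempty with rfl | hne
    · simpa using hB.empty
    by_cases hT : Per (orb π d) T
    · by_cases htop : orb π d = ⊤
      · exfalso
        apply hu
        obtain ⟨t, ht⟩ := hne
        ext x
        simp only [Finset.mem_univ, iff_true]
        have := hT t ht (x - t) (by rw [htop]; exact AddSubgroup.mem_top _)
        simpa using this
      · exact main_per' π d B hB hπ hd (hesc htop) hgen T hT hne hu IH'
    · unfold Per at hT
      push Not at hT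
      obtain ⟨x₀, hx₀, κ, hκ, hx⟩ := hT
      have hpos : 0 < T.card := Finset.card_pos.2 hne
      have e1 : n * (T.card - 1) + n = n * T.card := by
        obtain ⟨j, hj⟩ : ∃ j, T.card = j + 1 := ⟨T.card - 1, by omega⟩
        rw [hj]; simp; ring
      rcases step_row π d B hB hπ hd T x₀ κ hx₀ hκ hx with ⟨y, hy, -, hyd⟩ | ⟨U', hU', hc⟩
      · obtain ⟨h1, h2⟩ := red_step π d B hB hπ T y hy hyd
        have h3 := h2 _ (IH' _ (by omega))
        have h4 : (re π (sh T y)).card = T.card - 1 := by omega
        rw [h4] at h3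
        have := ZMod.val_lt y
        exact hB.mono _ _ _ h3 (by omega)
      · have h3 := hc _ (IH' U' (by omega))
        have h4 : U'.card = T.card - 1 := by omega
        rw [h4] at h3
        exact hB.mono _ _ _ h3 (by omega)

/-- Don's conjecture for standardized completely reachable automata such that the orbit subgroup
`K` and `f (K \ {0})` generate `ZMod n`, or such that `K` has prime index. -/
theorem result :
    ∀ (n : ℕ) [NeZero n] (f : ZMod n → ZMod n),
      (∀ P : Finset (ZMod n), P.Nonempty →
        ∃ w : List Bool,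
          Finset.univ.image (fun q : ZMod n =>
            w.foldl (fun (p : ZMod n) (c : Bool) => if c then f p else p + 1) q) = P) →
      (∀ q : ZMod n, (∀ p : ZMod n, f p ≠ q) ↔ q = 0) →
      (∀ q : ZMod n, (∃ p₁ p₂ : ZMod n, p₁ ≠ p₂ ∧ f p₁ = q ∧ f p₂ = q) ↔ q = f 0) →
      (AddSubgroup.closure ((orbitSubgroup f : Set (ZMod n)) ∪
          f '' {x | x ∈ orbitSubgroup f ∧ x ≠ 0}) = ⊤ ∨
        (orbitSubgroup f).index.Prime) →
      ∀ S : Finset (ZMod n), S.Nonempty →
        ∃ w : List Bool, w.length ≤ n * (n - S.card) ∧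
          Finset.univ.image (fun q : ZMod n =>
            w.foldl (fun (p : ZMod n) (c : Bool) => if c then f p else p + 1) q) = S := by
  intro n _ f hreach hexc hdup hcond S hS
  obtain ⟨hd, π, hπ, hf⟩ := perm_of f hexc hdup
  have hB := bd_cost π (f 0) f hπ hd hf
  have hK := orb_eq π f hπ hd hf
  have hdK : f 0 ∈ orb π (f 0) := AddSubgroup.subset_closure ⟨0, by simp⟩
  have hesc : orb π (f 0) ≠ ⊤ → ∃ x ∈ orb π (f 0), π x ∉ orb π (f 0) := fun h =>
    cr_escape π (f 0) f hπ hd hf hreach _ hdK h
  have himg : (orb π (f 0) : Set (ZMod n)) ∪ f '' {x | x ∈ orb π (f 0) ∧ x ≠ 0} =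
      (orb π (f 0) : Set (ZMod n)) ∪ π '' (orb π (f 0) : Set (ZMod n)) := by
    ext z
    constructor
    · rintro (h | ⟨x, ⟨hx, hx0⟩, rfl⟩)
      · exact Or.inl h
      · right
        refine ⟨x, hx, ?_⟩
        rw [hf x, if_neg hx0]
    · rintro (h | ⟨x, hx, rfl⟩)
      · exact Or.inl h
      · by_cases hx0 : x = 0
        · left
          rw [hx0, hπ]
          exact zero_mem (orb π (f 0))
        · right
          refine ⟨x, ⟨hx, hx0⟩, ?_⟩
          rw [hf x, if_neg hx0]
  have hgen : AddSubgroup.closure ((orb π (f 0) : Set (ZMod n)) ∪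
      π '' (orb π (f 0) : Set (ZMod n))) = ⊤ := by
    rw [← hK] at hcond
    rcases hcond with h | h
    · rw [← himg]; exact h
    · set H := AddSubgroup.closure ((orb π (f 0) : Set (ZMod n)) ∪
        π '' (orb π (f 0) : Set (ZMod n))) with hH
      have hle : orb π (f 0) ≤ H := fun x hx => AddSubgroup.subset_closure (Or.inl hx)
      have h1 := AddSubgroup.relIndex_mul_index hle
      have hne : orb π (f 0) ≠ ⊤ := by
        intro htop
        rw [htop, AddSubgroup.index_top] at h
        exact Nat.not_prime_one h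
      obtain ⟨x, hx, hπx⟩ := hesc hne
      have h2 : (orb π (f 0)).relIndex H ≠ 1 := by
        intro h3
        rw [AddSubgroup.relIndex_eq_one] at h3
        exact hπx (h3 (AddSubgroup.subset_closure (Or.inr ⟨x, hx, rfl⟩)))
      rw [← h1] at h
      rcases (Nat.prime_mul_iff.1 h) with ⟨_, h3⟩ | ⟨_, h3⟩
      · exact AddSubgroup.index_eq_one.1 h3
      · exact absurd h3 h2
  have hSc : Sᶜ ≠ Finset.univ := by
    intro h
    rw [Finset.compl_eq_univ_iff] at h
    exact hS.ne_empty h
  obtain ⟨w, hw, hw2⟩ := all_sets π (f 0) (Bd f) hB hπ hd hesc hgen _ Sᶜ rfl hSc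
  refine ⟨w, ?_, ?_⟩
  · rw [Finset.card_compl, ZMod.card] at hw
    exact hw
  · rw [hw2, compl_compl]

end Pool.Agent.Results.MP_cc0723_lc.GeneratingOrbit
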